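import Pool.Agent.H.MP_e2f694_an.Inj
import Pool.Agent.H.MP_e2f694_an.Compare

/-!
# Affine Hopf algebras are not determined by their Arens-Michael envelopes

The Hopf algebras are `HQ 1` and `HQ e`, where `HQ q` is generated by `x, y, t, t⁻¹` with
`[x,y] = y`, `t x = x t`, `t y = q y t`, with `x`, `y` primitive and `t` group-like. In the
envelope the group-like element `exp x` exists and `exp(x) y = e y exp(x)`; so `t ↦ exp(x) t`
gives an isomorphism from the envelope of `HQ e` to the envelope of `HQ 1`. But `HQ 1` and `HQ e`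
are not isomorphic, not even as algebras.
-/

namespace Pool.Agent.Results.MP_e2f694_an.Counterexample

open Pool.Agent.H.MP_e2f694_an

/-- There are Hopf algebras `H₁`, `H₂` over `ℂ`, finitely generated as algebras, which have
Arens-Michael envelopes in which they embed and which are isomorphic as Hopf `⊗^`-algebras,
while `H₁` and `H₂` are not isomorphic, not even as algebras. -/
theorem result : ∃ (H₁ H₂ : Type) (_ : Ring H₁) (_ : HopfAlgebra ℂ H₁) (_ : Ring H₂)
    (_ : HopfAlgebra ℂ H₂),
    Algebra.FiniteType ℂ H₁ ∧ Algebra.FiniteType ℂ H₂ ∧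
    Nonempty (HopfEnvelope H₁) ∧ Nonempty (HopfEnvelope H₂) ∧
    (∀ (X : HopfEnvelope H₁) (Y : HopfEnvelope H₂),
      Function.Injective X.ι ∧ Function.Injective Y.ι ∧ Nonempty (X.Iso Y)) ∧
    IsEmpty (H₁ ≃ₐ[ℂ] H₂) := by
  have he : Complex.exp 1 ≠ 1 := by
    intro h
    have h1 := congrArg (fun z => ‖z‖) h
    simp [Complex.norm_exp] at h1
  have hinj : ∀ (q : ℂ), q ≠ 0 → ∀ X : HopfEnvelope (HQ q), Function.Injective X.ι := by
    intro q hq X
    have h1 : (X.ι : HQ q → X.B) = X.theta ∘ toEnv (HQ q) :=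
      funext fun a => (X.theta_toEnv a).symm
    rw [h1]
    exact X.theta.injective.comp (HQ.toEnv_injective hq)
  refine ⟨HQ 1, HQ (Complex.exp 1), inferInstance, inferInstance, inferInstance, inferInstance,
    inferInstance, inferInstance, ⟨stdEnvelope _⟩, ⟨stdEnvelope _⟩,
    fun X Y => ⟨hinj 1 one_ne_zero X, hinj _ (Complex.exp_ne_zero 1) Y,
      ⟨((X.toStd.trans (HQ.envIso (c := -1) (c' := 1) ?_ ?_ ?_).toIsoData).trans
        Y.fromStd).toIso⟩⟩,
    HQ.not_iso (Complex.exp_ne_zero _) he⟩
  · rw [← Complex.exp_add]; simp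
  · simp
  · simp

end Pool.Agent.Results.MP_e2f694_an.Counterexample
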